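import Pool.Agent.H95.Cliff

set_option autoImplicit false
open Pool.Agent.H95.CliffDefs

theorem Pool.Agent.Results.MP_fa5fea_an.Five.result :
    ∃ (γ : Fin 3 → Matrix (Fin 2) (Fin 2) ℂ) (A : Fin 3 → Matrix (Fin 3) (Fin 3) ℂ),
      IsCliffordRep γ ∧ (∀ j, (A j).IsHermitian) ∧ (cliffSpec A γ).Finite ∧
        3 < (cliffSpec A γ).ncard :=
  Pool.Agent.H95.Cliff.main
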